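import Mathlib

/-!
# Clique number of an overlap graph and its quotient by inversion (MP_81fdd0_co, Q1, disproof)

In the free group on any basis with at least two elements there is a symmetric set `V` of
non-self-overlapping words such that `OG(V)` has clique number `2`, whereas its quotient by
inversion is an infinite complete graph (so that its clique number is infinite).
-/

namespace Pool.Agent.Results.MP_81fdd0_co.OverlapClique

variable {α : Type*} [DecidableEq α]

/-- `w` properly overlaps `w'`: some nonempty word `x` is a final segment of the reduced word `w`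
and an initial segment of the reduced word `w'`, and is shorter than both. -/
def ProperOverlap (w w' : FreeGroup α) : Prop :=
  ∃ x : List (α × Bool), x ≠ [] ∧ x <:+ w.toWord ∧ x <+: w'.toWord ∧
    x.length < w.toWord.length ∧ x.length < w'.toWord.length

/-- `w ≠ 1` and no nonempty word is both a proper initial and a proper final segment of `w`. -/
def NonSelfOverlapping (w : FreeGroup α) : Prop :=
  w ≠ 1 ∧ ¬ ∃ x : List (α × Bool), x ≠ [] ∧ x <:+ w.toWord ∧ x <+: w.toWord ∧
    x.length < w.toWord.length

/-- The undirected graph underlying the overlap graph `OG(V)`. -/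
def OG (V : Set (FreeGroup α)) : SimpleGraph V where
  Adj w w' := w ≠ w' ∧ (ProperOverlap w.1 w'.1 ∨ ProperOverlap w'.1 w.1)
  symm := ⟨fun _ _ h => ⟨h.1.symm, h.2.symm⟩⟩
  loopless := ⟨fun _ h => h.1 rfl⟩

/-- The quotient of the overlap graph by inversion: its vertices are the pairs `{w, w⁻¹}`,
`w ∈ V`; two distinct pairs are adjacent if some element of one properly overlaps some element of
the other. -/
def OGbar (V : Set (FreeGroup α)) :
    SimpleGraph {p : Set (FreeGroup α) // ∃ w ∈ V, p = {w, w⁻¹}} where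
  Adj p q := p ≠ q ∧ ∃ w ∈ p.1, ∃ w' ∈ q.1, ProperOverlap w w' ∨ ProperOverlap w' w
  symm := ⟨fun _ _ h => ⟨h.1.symm, by
    obtain ⟨w, hw, w', hw', h2⟩ := h.2
    exact ⟨w', hw', w, hw, h2.symm⟩⟩⟩
  loopless := ⟨fun _ h => h.1 rfl⟩

/-- The clique number of a (possibly infinite) graph, in `ℕ∞`. -/
noncomputable def omega {W : Type*} (G : SimpleGraph W) : ℕ∞ :=
  ⨆ (s : Finset W) (_ : G.IsClique (s : Set W)), (s.card : ℕ∞)

/-! ### The words -/

section words

variable (a b : α)

/-- `P 0 = a`, `P (n+1) = P n · b · (P n)⁻¹`. -/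
def P : ℕ → List (α × Bool)
  | 0 => [(a, true)]
  | n + 1 => P n ++ (b, true) :: FreeGroup.invRev (P n)

/-- `b · P n`. -/
def Q (n : ℕ) : List (α × Bool) := (b, true) :: P a b n

/-- `b · b · P n`. -/
def W (n : ℕ) : List (α × Bool) := (b, true) :: Q a b n

/-- `(P n)⁻¹ · b⁻¹`. -/
def R (n : ℕ) : List (α × Bool) := FreeGroup.invRev (P a b n) ++ [(b, false)]

omit [DecidableEq α] in
theorem invRev_W (n : ℕ) : FreeGroup.invRev (W a b n) = R a b n ++ [(b, false)] := by
  unfold W Q R FreeGroup.invRev
  simp

/-- Consecutive letters belong to different generators. -/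
def Alt (l : List (α × Bool)) : Prop := l.IsChain (fun x y => x.1 ≠ y.1)

omit [DecidableEq α] in
theorem alt_invRev {l : List (α × Bool)} (h : Alt l) : Alt (FreeGroup.invRev l) := by
  unfold Alt FreeGroup.invRev at *
  rw [List.isChain_reverse, List.isChain_map]
  exact h.imp (fun x y hxy => fun he => hxy he.symm)

omit [DecidableEq α] in
theorem P_head (n : ℕ) : ∃ t, P a b n = (a, true) :: t := by
  induction n with
  | zero => exact ⟨[], rfl⟩
  | succ n ih =>
    obtain ⟨t, ht⟩ := ih
    exact ⟨t ++ (b, true) :: FreeGroup.invRev (P a b n), by simp [P, ht]⟩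

omit [DecidableEq α] in
theorem P_last (n : ℕ) : ∃ s e, P a b n = s ++ [(a, e)] := by
  cases n with
  | zero => exact ⟨[], true, rfl⟩
  | succ n =>
    obtain ⟨t, ht⟩ := P_head a b n
    refine ⟨P a b n ++ (b, true) :: FreeGroup.invRev t, false, ?_⟩
    rw [P, ht]
    unfold FreeGroup.invRev
    simp

omit [DecidableEq α] in
theorem alt_P (hab : a ≠ b) (n : ℕ) : Alt (P a b n) := by
  induction n with
  | zero => exact List.isChain_singleton _
  | succ n ih =>
    obtain ⟨s, e, hs⟩ := P_last a b n
    unfold Alt at *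
    rw [P, List.isChain_append, List.isChain_cons]
    refine ⟨ih, ⟨?_, alt_invRev ih⟩, ?_⟩
    · intro y hy
      have : y = (a, !e) := by
        rw [hs] at hy
        unfold FreeGroup.invRev at hy
        simp only [List.map_append, List.map_cons, List.map_nil, List.reverse_append,
          List.reverse_cons, List.reverse_nil, List.nil_append, List.cons_append,
          List.head?_cons, Option.mem_def, Option.some.injEq] at hy
        exact hy.symm
      rw [this]
      exact fun h => hab h.symm
    · intro x hx y hy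
      have h1 : x = (a, e) := by
        rw [hs] at hx
        simp only [List.getLast?_append, List.getLast?_singleton,
          Option.some_or, Option.mem_def, Option.some.injEq] at hx
        exact hx.symm
      have h2 : y = (b, true) := by
        simp only [List.head?_cons, Option.mem_def, Option.some.injEq] at hy
        exact hy.symm
      rw [h1, h2]
      exact hab

omit [DecidableEq α] in
theorem alt_Q (hab : a ≠ b) (n : ℕ) : Alt (Q a b n) := by
  obtain ⟨t, ht⟩ := P_head a b n
  unfold Alt Q
  rw [List.isChain_cons]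
  refine ⟨?_, alt_P a b hab n⟩
  intro y hy
  rw [ht] at hy
  simp only [List.head?_cons, Option.mem_def, Option.some.injEq] at hy
  rw [← hy]
  exact fun h => hab h.symm

omit [DecidableEq α] in
theorem alt_R (hab : a ≠ b) (n : ℕ) : Alt (R a b n) := by
  have h : R a b n = FreeGroup.invRev (Q a b n) := by
    unfold Q R FreeGroup.invRev
    simp
  rw [h]
  exact alt_invRev (alt_Q a b hab n)

omit [DecidableEq α] in
theorem R_head (n : ℕ) : ∃ e t, R a b n = (a, e) :: t := by
  obtain ⟨s, e, hs⟩ := P_last a b n
  refine ⟨!e, FreeGroup.invRev s ++ [(b, false)], ?_⟩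
  unfold R
  rw [hs]
  unfold FreeGroup.invRev
  simp

omit [DecidableEq α] in
theorem Q_last (hab : a ≠ b) (n : ℕ) (c : Bool) : ¬ [(b, c)] <:+ Q a b n := by
  rintro ⟨s', hs'⟩
  obtain ⟨s, e, hs⟩ := P_last a b n
  have h1 : (s' ++ [(b, c)]).getLast? = (Q a b n).getLast? := by rw [hs']
  unfold Q at h1
  rw [hs, ← List.cons_append, List.getLast?_append, List.getLast?_append] at h1
  simp only [List.getLast?_singleton, Option.some_or, Option.some.injEq, Prod.mk.injEq] at h1
  exact hab h1.1.symm

omit [DecidableEq α] in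
theorem isReduced_W (hab : a ≠ b) (n : ℕ) : FreeGroup.IsReduced (W a b n) := by
  have h : FreeGroup.IsReduced (Q a b n) :=
    (alt_Q a b hab n).imp (fun x y hxy he => absurd he hxy)
  unfold W
  unfold Q at *
  rw [FreeGroup.isReduced_cons_cons]
  exact ⟨fun _ => rfl, h⟩

omit [DecidableEq α] in
theorem Alt.factor {l l' : List (α × Bool)} (h : Alt l) (h' : l' <:+: l) : Alt l' := by
  obtain ⟨s, t, rfl⟩ := h'
  unfold Alt at *
  rw [List.isChain_append, List.isChain_append] at h
  exact h.1.2.1

omit [DecidableEq α] in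
theorem not_alt_pair {x : List (α × Bool)} {c d : Bool} (h : Alt x)
    (hx : [(b, c), (b, d)] <:+: x) : False := by
  have h2 : List.IsChain (fun x y : α × Bool => x.1 ≠ y.1) [(b, c), (b, d)] :=
    Alt.factor h hx
  simp at h2

/-! ### Overlaps of the words -/

omit [DecidableEq α] in
/-- `W i` does not properly overlap `W j`. -/
theorem no_WW (hab : a ≠ b) {i j : ℕ} {x : List (α × Bool)} (hx : x ≠ [])
    (h1 : x <:+ W a b i) (h2 : x <+: W a b j) (h3 : x.length < (W a b i).length) : False := by
  unfold W at h1 h2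
  rcases List.suffix_cons_iff.mp h1 with h | h
  · rw [h] at h3
    exact absurd h3 (by simp [W])
  · unfold Q at h2
    cases x with
    | nil => exact hx rfl
    | cons p x =>
      obtain ⟨hp, h4⟩ := List.cons_prefix_cons.mp h2
      cases x with
      | nil =>
        rw [hp] at h
        exact Q_last a b hab i true h
      | cons q x =>
        obtain ⟨hq, _⟩ := List.cons_prefix_cons.mp h4
        rw [hp, hq] at h
        have halt : Alt ((b, true) :: (b, true) :: x) := Alt.factor (alt_Q a b hab i) h.isInfix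
        exact not_alt_pair b halt ⟨[], x, rfl⟩

omit [DecidableEq α] in
theorem suffix_invW {i : ℕ} {x : List (α × Bool)} (hx : x ≠ [])
    (h1 : x <:+ R a b i ++ [(b, false)]) : x = [(b, false)] ∨ ∃ y, x = y ++ [(b, false), (b, false)] := by
  rcases List.suffix_concat_iff.mp h1 with h | ⟨t, ht, hts⟩
  · exact absurd h hx
  · unfold R at hts
    rcases List.suffix_concat_iff.mp hts with h | ⟨t', ht', _⟩
    · left
      rw [ht, h]
      rfl
    · right
      exact ⟨t', by rw [ht, ht']; simp⟩

omit [DecidableEq α] in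
/-- `(W i)⁻¹` does not properly overlap `W j`. -/
theorem no_iW_W (hab : a ≠ b) {i j : ℕ} {x : List (α × Bool)} (hx : x ≠ [])
    (h1 : x <:+ R a b i ++ [(b, false)]) (h2 : x <+: W a b j) : False := by
  unfold W at h2
  rcases suffix_invW a b hx h1 with h | ⟨y, h⟩
  · rw [h] at h2
    have := (List.cons_prefix_cons.mp h2).1
    simp at this
  · rw [h] at h2
    cases y with
    | nil =>
      have := (List.cons_prefix_cons.mp h2).1
      simp at this
    | cons p y =>
      rw [List.cons_append] at h2
      have h4 := (List.cons_prefix_cons.mp h2).2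
      have halt : Alt (y ++ [(b, false), (b, false)]) :=
        Alt.factor (alt_Q a b hab j) h4.isInfix
      exact not_alt_pair b (c := false) (d := false) halt ⟨y, [], by simp⟩

omit [DecidableEq α] in
/-- `(W i)⁻¹` does not properly overlap `(W j)⁻¹`. -/
theorem no_iW_iW (hab : a ≠ b) {i j : ℕ} {x : List (α × Bool)} (hx : x ≠ [])
    (h1 : x <:+ R a b i ++ [(b, false)]) (h2 : x <+: R a b j ++ [(b, false)])
    (h3 : x.length < (R a b j ++ [(b, false)]).length) : False := by
  rcases List.prefix_concat_iff.mp h2 with h | h2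
  · rw [h] at h3
    exact absurd h3 (lt_irrefl _)
  · rcases suffix_invW a b hx h1 with h | ⟨y, h⟩
    · obtain ⟨e, t, ht⟩ := R_head a b j
      rw [h, ht] at h2
      have := (List.cons_prefix_cons.mp h2).1
      simp only [Prod.mk.injEq] at this
      exact hab this.1.symm
    · have halt : Alt x := Alt.factor (alt_R a b hab j) h2.isInfix
      rw [h] at halt
      exact not_alt_pair b (c := false) (d := false) halt ⟨y, [], by simp⟩

omit [DecidableEq α] in
theorem P_isPrefix {i j : ℕ} (hij : i ≤ j) : P a b i <+: P a b j := by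
  induction j with
  | zero =>
    have : i = 0 := by omega
    rw [this]
  | succ j ih =>
    rcases Nat.lt_or_ge i (j + 1) with h | h
    · exact (ih (by omega)).trans ⟨_, rfl⟩
    · have : i = j + 1 := by omega
      rw [this]

omit [DecidableEq α] in
theorem invRev_isSuffix {u v : List (α × Bool)} (h : u <+: v) :
    FreeGroup.invRev u <:+ FreeGroup.invRev v := by
  obtain ⟨t, rfl⟩ := h
  exact ⟨FreeGroup.invRev t, by rw [FreeGroup.invRev_append]⟩

omit [DecidableEq α] in
theorem invRev_isPrefix {u v : List (α × Bool)} (h : u <:+ v) :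
    FreeGroup.invRev u <+: FreeGroup.invRev v := by
  obtain ⟨t, rfl⟩ := h
  exact ⟨FreeGroup.invRev t, by rw [FreeGroup.invRev_append]⟩

omit [DecidableEq α] in
theorem P_isPrefix_inv {i j : ℕ} (hij : i < j) :
    P a b i <+: FreeGroup.invRev (P a b j) := by
  obtain ⟨j, rfl⟩ : ∃ j', j = j' + 1 := ⟨j - 1, by omega⟩
  have h1 : FreeGroup.invRev (P a b i) <:+ P a b (j + 1) :=
    (invRev_isSuffix (P_isPrefix a b (by omega : i ≤ j))).trans
      ⟨P a b j ++ [(b, true)], by simp [P]⟩
  have h2 := invRev_isPrefix h1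
  rwa [FreeGroup.invRev_invRev] at h2

omit [DecidableEq α] in
theorem W_length (n : ℕ) : (W a b n).length = (P a b n).length + 2 := by
  simp [W, Q]

omit [DecidableEq α] in
theorem P_length_lt {i j : ℕ} (hij : i < j) : (P a b i).length < (P a b j).length := by
  induction j with
  | zero => omega
  | succ j ih =>
    have h1 : (P a b (j + 1)).length = (P a b j).length + ((P a b j).length + 1) := by
      simp [P, FreeGroup.invRev]
    rcases Nat.lt_or_ge i j with h | h
    · have := ih h
      omega
    · have : i = j := by omega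
      rw [this]
      omega

end words

/-! ### The set `V` -/

/-- The element `b b (P n)` of the free group. -/
def w (a b : α) (n : ℕ) : FreeGroup α := FreeGroup.mk (W a b n)

theorem toWord_w {a b : α} (hab : a ≠ b) (n : ℕ) : (w a b n).toWord = W a b n := by
  unfold w
  rw [FreeGroup.toWord_mk]
  exact (isReduced_W a b hab n).reduce_eq

theorem toWord_w_inv {a b : α} (hab : a ≠ b) (n : ℕ) :
    ((w a b n)⁻¹).toWord = R a b n ++ [(b, false)] := by
  rw [FreeGroup.toWord_inv, toWord_w hab, invRev_W]

theorem w_ne_w_inv {a b : α} (hab : a ≠ b) (i j : ℕ) : w a b i ≠ (w a b j)⁻¹ := by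
  intro h
  have h1 : (w a b i).toWord = ((w a b j)⁻¹).toWord := by rw [h]
  rw [toWord_w hab, toWord_w_inv hab] at h1
  obtain ⟨e, t, ht⟩ := R_head a b j
  rw [ht] at h1
  unfold W at h1
  simp only [List.cons_append, List.cons.injEq, Prod.mk.injEq] at h1
  exact hab h1.1.1.symm

theorem w_injective {a b : α} (hab : a ≠ b) {i j : ℕ} (h : w a b i = w a b j) : i = j := by
  have h1 : (w a b i).toWord.length = (w a b j).toWord.length := by rw [h]
  rw [toWord_w hab, toWord_w hab, W_length, W_length] at h1
  rcases Nat.lt_trichotomy i j with h2 | h2 | h2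
  · have := P_length_lt a b h2
    omega
  · exact h2
  · have := P_length_lt a b h2
    omega

/-- The symmetric set `V`. -/
def V (a b : α) : Set (FreeGroup α) := {g | ∃ n, g = w a b n ∨ g = (w a b n)⁻¹}

theorem overlap_cases {a b : α} (hab : a ≠ b) {g h : FreeGroup α} (hg : g ∈ V a b)
    (hh : h ∈ V a b) (ho : ProperOverlap g h) : (∃ i, g = w a b i) ∧ ∃ j, h = (w a b j)⁻¹ := by
  obtain ⟨x, hx, h1, h2, h3, h4⟩ := ho
  obtain ⟨i, rfl | rfl⟩ := hg <;> obtain ⟨j, rfl | rfl⟩ := hh
  · rw [toWord_w hab] at h1 h2 h3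
    exact (no_WW a b hab hx h1 h2 h3).elim
  · exact ⟨⟨i, rfl⟩, ⟨j, rfl⟩⟩
  · rw [toWord_w hab] at h2
    rw [toWord_w_inv hab] at h1
    exact (no_iW_W a b hab hx h1 h2).elim
  · rw [toWord_w_inv hab] at h1 h2 h4
    exact (no_iW_iW a b hab hx h1 h2 h4).elim

theorem overlap_lt {a b : α} (hab : a ≠ b) {i j : ℕ} (hij : i < j) :
    ProperOverlap (w a b i) (w a b j)⁻¹ := by
  have hlen := P_length_lt a b hij
  refine ⟨P a b i, ?_, ?_, ?_, ?_, ?_⟩
  · obtain ⟨t, ht⟩ := P_head a b i
    rw [ht]
    simp
  · rw [toWord_w hab]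
    exact ⟨[(b, true), (b, true)], by simp [W, Q]⟩
  · rw [toWord_w_inv hab]
    unfold R
    rw [List.append_assoc]
    exact (P_isPrefix_inv a b hij).trans ⟨_, rfl⟩
  · rw [toWord_w hab, W_length]
    omega
  · rw [FreeGroup.toWord_inv, FreeGroup.invRev_length, toWord_w hab, W_length]
    omega

omit [DecidableEq α] in
theorem V_symm {a b : α} : ∀ g ∈ V a b, g⁻¹ ∈ V a b := by
  rintro g ⟨n, rfl | rfl⟩
  · exact ⟨n, Or.inr rfl⟩
  · exact ⟨n, Or.inl (inv_inv _)⟩

theorem V_nonSelf {a b : α} (hab : a ≠ b) : ∀ g ∈ V a b, NonSelfOverlapping g := by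
  intro g hg
  constructor
  · rintro rfl
    obtain ⟨n, h | h⟩ := hg
    · have h1 : (1 : FreeGroup α).toWord.length = (w a b n).toWord.length := by rw [h]
      rw [toWord_w hab, W_length, FreeGroup.toWord_one, List.length_nil] at h1
      omega
    · have h1 : (1 : FreeGroup α).toWord.length = ((w a b n)⁻¹).toWord.length := by rw [h]
      rw [FreeGroup.toWord_inv, FreeGroup.invRev_length, toWord_w hab, W_length,
        FreeGroup.toWord_one, List.length_nil] at h1
      omega
  · rintro ⟨x, hx, h1, h2, h3⟩
    obtain ⟨⟨i, hi⟩, ⟨j, hj⟩⟩ := overlap_cases hab hg hg ⟨x, hx, h1, h2, h3, h3⟩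
    exact w_ne_w_inv hab i j (hi.symm.trans hj)

theorem omega_OG {a b : α} (hab : a ≠ b) : omega (OG (V a b)) = 2 := by
  classical
  apply le_antisymm
  · apply iSup₂_le
    intro s hs
    let C : (OG (V a b)).Coloring Bool := SimpleGraph.Coloring.mk
      (fun g => decide (∃ i, g.1 = w a b i)) (by
        rintro g h ⟨_, h1 | h1⟩
        · obtain ⟨⟨i, hi⟩, ⟨j, hj⟩⟩ := overlap_cases hab g.2 h.2 h1
          have h2 : ¬ ∃ i, h.1 = w a b i := by
            rintro ⟨k, hk⟩
            exact w_ne_w_inv hab k j (hk.symm.trans hj)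
          simp [h2, hi]
        · obtain ⟨⟨i, hi⟩, ⟨j, hj⟩⟩ := overlap_cases hab h.2 g.2 h1
          have h2 : ¬ ∃ i, g.1 = w a b i := by
            rintro ⟨k, hk⟩
            exact w_ne_w_inv hab k j (hk.symm.trans hj)
          simp [h2, hi])
    have := hs.card_le_of_coloring C
    rw [Fintype.card_bool] at this
    exact_mod_cast this
  · let x : V a b := ⟨w a b 0, ⟨0, Or.inl rfl⟩⟩
    let y : V a b := ⟨(w a b 1)⁻¹, ⟨1, Or.inr rfl⟩⟩
    have hxy : x ≠ y := fun h => w_ne_w_inv hab 0 1 (congrArg Subtype.val h)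
    have hadj : (OG (V a b)).Adj x y := ⟨hxy, Or.inl (overlap_lt hab (by norm_num))⟩
    have hcl : (OG (V a b)).IsClique (({x, y} : Finset (V a b)) : Set (V a b)) := by
      intro p hp q hq hpq
      simp only [Finset.coe_insert, Finset.coe_singleton, Set.mem_insert_iff,
        Set.mem_singleton_iff] at hp hq
      rcases hp with rfl | rfl <;> rcases hq with rfl | rfl
      · exact absurd rfl hpq
      · exact hadj
      · exact hadj.symm
      · exact absurd rfl hpq
    have h2 : (({x, y} : Finset (V a b)).card : ℕ∞) ≤ omega (OG (V a b)) :=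
      le_iSup₂_of_le ({x, y} : Finset (V a b)) hcl le_rfl
    rw [Finset.card_pair hxy] at h2
    exact_mod_cast h2

theorem omega_OGbar {a b : α} (hab : a ≠ b) : omega (OGbar (V a b)) = ⊤ := by
  classical
  rw [ENat.eq_top_iff_forall_ge]
  intro m
  let p : ℕ → {p : Set (FreeGroup α) // ∃ w ∈ V a b, p = {w, w⁻¹}} :=
    fun n => ⟨{w a b n, (w a b n)⁻¹}, w a b n, ⟨n, Or.inl rfl⟩, rfl⟩
  have hinj : Function.Injective p := by
    intro i j hij
    have h1 : w a b i ∈ (p j).1 := by
      rw [← hij]
      exact Set.mem_insert _ _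
    rcases h1 with h | h
    · exact w_injective hab h
    · exact absurd h (w_ne_w_inv hab i j)
  have hcl : (OGbar (V a b)).IsClique (((Finset.range m).image p : Finset _) : Set _) := by
    intro u hu v hv huv
    rw [Finset.mem_coe, Finset.mem_image] at hu hv
    obtain ⟨i, _, rfl⟩ := hu
    obtain ⟨j, _, rfl⟩ := hv
    refine ⟨huv, ?_⟩
    rcases Nat.lt_trichotomy i j with h | h | h
    · exact ⟨w a b i, Set.mem_insert _ _, (w a b j)⁻¹, Set.mem_insert_of_mem _ rfl,
        Or.inl (overlap_lt hab h)⟩
    · subst h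
      exact absurd rfl huv
    · exact ⟨(w a b i)⁻¹, Set.mem_insert_of_mem _ rfl, w a b j, Set.mem_insert _ _,
        Or.inr (overlap_lt hab h)⟩
  have h2 := le_iSup₂_of_le (f := fun (s : Finset _) (_ : (OGbar (V a b)).IsClique (s : Set _)) =>
    (s.card : ℕ∞)) ((Finset.range m).image p) hcl le_rfl
  rw [Finset.card_image_of_injective _ hinj, Finset.card_range] at h2
  exact h2

/-- **MP_81fdd0_co, Q1 (disproof).** For every basis `α` with at least two elements (finite or not)
there is a symmetric set `V` of non-self-overlapping words of the free group on `α` with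
`ω(OG(V)) = 2` and infinite clique number of the quotient of `OG(V)` by inversion. -/
theorem result {α : Type} [DecidableEq α] [Nontrivial α] :
    ∃ V : Set (FreeGroup α), (∀ w ∈ V, w⁻¹ ∈ V) ∧ (∀ w ∈ V, NonSelfOverlapping w) ∧
      omega (OG V) = 2 ∧ omega (OGbar V) = ⊤ := by
  obtain ⟨a, b, hab⟩ := exists_pair_ne α
  exact ⟨V a b, V_symm, V_nonSelf hab, omega_OG hab, omega_OGbar hab⟩

end Pool.Agent.Results.MP_81fdd0_co.OverlapClique
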